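import Pool.Agent.Helper80.MM.Stm

/-! Schanuel's inequality from the rank inequality. -/

set_option autoImplicit false

namespace Pool.Agent.Helper47.MM

open Pool.Agent.Helper35.EM Pool.Agent.Helper56.SA Pool.Agent.Helper56.EM Pool.Agent.Helper56.NL
  Pool.Agent.Helper56.HS Pool.Agent.Helper80.MM Module Submodule Set

theorem indS_mono {S I J : Set ℂ} (h : IndS S I) (hJ : J ⊆ I) : IndS S J := by
  intro e he h1
  refine h e (hJ he) (cl_mono ?_ h1)
  exact union_subset_union_right _ (sdiff_subset_sdiff_left hJ)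

theorem rk_union {S A : Set ℂ} (hA : A ⊆ M.closure S) (I : Finset ℂ) :
    IndS S (I : Set ℂ) → M.eRk A + (I.card : ℕ∞) ≤ M.eRk (A ∪ (I : Set ℂ)) := by
  classical
  induction I using Finset.induction_on with
  | empty =>
    intro _
    simp
  | insert e I he ih =>
    intro h
    have h1 : IndS S (I : Set ℂ) := indS_mono h (by simp)
    have h2 := ih h1
    have h3 : e ∉ M.closure (S ∪ (I : Set ℂ)) := by
      have h4 := h e (by simp)
      have h5 : ((insert e I : Finset ℂ) : Set ℂ) \ {e} = (I : Set ℂ) := by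
        rw [Finset.coe_insert, Set.insert_sdiff_self_of_notMem (by simpa using he)]
      rwa [h5] at h4
    have h6 : e ∉ M.closure (A ∪ (I : Set ℂ)) := by
      intro h7
      apply h3
      refine cl_le ?_ h7
      rintro x (hx | hx)
      · exact cl_mono subset_union_left (hA hx)
      · exact cl_self (Or.inr hx)
    have h8 : M.eRk (insert e (A ∪ (I : Set ℂ))) = M.eRk (A ∪ (I : Set ℂ)) + 1 :=
      Matroid.eRk_insert_eq_add_one ⟨mem_univ _, h6⟩
    rw [Finset.coe_insert, Set.union_insert, h8, Finset.card_insert_of_notMem he, Nat.cast_add,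
      Nat.cast_one, ← add_assoc]
    exact add_le_add_left h2 1

/-- coordinates of the pairs over a rational span -/
theorem co_span {K : IntermediateField ℚ ℂ} (lam : K →ₗ[ℚ] ℂ) {ι : Type*} (z : ι → K) :
    co ((span ℚ (range z)).map (gr lam)) ⊆
      M.closure (range (fun j => (z j : ℂ)) ∪ range fun j => Complex.exp (lam (z j))) := by
  rintro a ⟨q, ⟨x, hx, rfl⟩, ha⟩
  have key : (x : ℂ) ∈ M.closure (range (fun j => (z j : ℂ)) ∪ range fun j =>
      Complex.exp (lam (z j))) ∧ Complex.exp (lam x) ∈ M.closure (range (fun j => (z j : ℂ)) ∪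
        range fun j => Complex.exp (lam (z j))) := by
    clear ha
    have hx' : x ∈ span ℚ (range z) := hx
    clear hx
    induction hx' using Submodule.span_induction with
    | mem x hx =>
      obtain ⟨j, rfl⟩ := hx
      exact ⟨cl_self (Or.inl ⟨j, rfl⟩), cl_self (Or.inr ⟨j, rfl⟩)⟩
    | zero =>
      refine ⟨cl_zero _, ?_⟩
      rw [map_zero, Complex.exp_zero]; exact cl_one _
    | add x y _ _ hx hy =>
      refine ⟨cl_add hx.1 hy.1, ?_⟩
      rw [map_add]; exact cl_exp_add hx.2 hy.2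
    | smul q x _ hx =>
      refine ⟨cl_smul q hx.1, ?_⟩
      rw [map_smul]; exact cl_exp_smul q hx.2
  rcases ha with rfl | rfl
  · exact key.1
  · exact key.2

theorem exists_fin {A : Set ℂ} {n : ℕ} (h : (n : ℕ∞) ≤ M.eRk A) :
    ∃ f : Fin n → ℂ, (∀ i, f i ∈ A) ∧ AlgebraicIndependent ℚ f := by
  obtain ⟨J, hJA, hJ, hJn⟩ := Matroid.le_eRk_iff.1 h
  have hfin : J.Finite := by
    rw [← encard_lt_top_iff, hJn]; exact ENat.natCast_lt_top n
  have : Finite J := hfin
  have hc : Nat.card J = n := by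
    change J.ncard = n
    rw [ncard, hJn]; rfl
  let e : Fin n ≃ J := (Finite.equivFinOfCardEq hc).symm
  refine ⟨fun i => (e i : ℂ), fun i => hJA (e i).2, ?_⟩
  have h1 : AlgebraicIndependent ℚ (Subtype.val : J → ℂ) := hJ
  exact h1.comp e e.injective

theorem schl : S_SCHL := by
  intro K lam S P0 hS hU hR n z hz
  have hfV : FiniteDimensional ℚ (span ℚ (range z)) :=
    FiniteDimensional.span_of_finite ℚ (finite_range z)
  obtain ⟨I, hIco, hInd, hle⟩ := hR (span ℚ (range z)) hfV
  rw [finrank_span_eq_card hz, Fintype.card_fin] at hle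
  set V := (span ℚ (range z)).map (gr lam) with hV
  have hfin : FiniteDimensional ℚ V := inferInstance
  have hfU : FiniteDimensional ℚ (V ⊓ P0 : Submodule ℚ (ℂ × ℂ)) :=
    Submodule.finiteDimensional_of_le (inf_le_left : V ⊓ P0 ≤ V)
  have h1 := hU _ (inf_le_right : V ⊓ P0 ≤ P0) hfU
  have hco : co (V ⊓ P0) ⊆ M.closure S := by
    rintro e ⟨p, hp, rfl | rfl⟩
    · exact hS.fst_mem p hp.2
    · exact hS.exp_mem p hp.2
  have h2 := rk_union hco I hInd
  have h3 : M.eRk (co (V ⊓ P0) ∪ (I : Set ℂ)) ≤ M.eRk (co V) := by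
    apply M.eRk_mono
    apply union_subset _ hIco
    rintro e ⟨p, hp, h⟩
    exact ⟨p, hp.1, h⟩
  have h4 : (n : ℕ∞) ≤ M.eRk (co V) := by
    refine le_trans ?_ (h2.trans h3)
    refine le_trans ?_ (add_le_add_left h1 _)
    have h5 : n ≤ finrank ℚ (V ⊓ P0 : Submodule ℚ (ℂ × ℂ)) + I.card := by omega
    exact_mod_cast h5
  have h5 : (n : ℕ∞) ≤ M.eRk (range (fun j => (z j : ℂ)) ∪ range fun j =>
      Complex.exp (lam (z j))) := by
    refine h4.trans ?_
    rw [← M.eRk_closure_eq (range (fun j => (z j : ℂ)) ∪ range fun j =>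
      Complex.exp (lam (z j)))]
    exact M.eRk_mono (co_span lam z)
  exact exists_fin h5

end Pool.Agent.Helper47.MM
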